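import Pool.Agent.Q81.IM.Stm

/-! JOB AP of project IM (helper81). -/

set_option autoImplicit false

open Complex Metric Set MeasureTheory Filter Topology

namespace Pool.Agent.Q110.IM

open Pool.Agent.Q81.IM

/-- the Taylor polynomials -/
noncomputable def tp (p : FormalMultilinearSeries ℂ ℂ ℂ) (n : ℕ) : Polynomial ℂ :=
  ∑ k ∈ Finset.range n, Polynomial.monomial k (p.coeff k)

/-- their primitives -/
noncomputable def tq (p : FormalMultilinearSeries ℂ ℂ ℂ) (n : ℕ) : Polynomial ℂ :=
  ∑ k ∈ Finset.range n, Polynomial.monomial (k + 1) (p.coeff k / ((k : ℂ) + 1))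

lemma tq_deriv (p : FormalMultilinearSeries ℂ ℂ ℂ) (n : ℕ) :
    Polynomial.derivative (tq p n) = tp p n := by
  unfold tq tp
  rw [Polynomial.derivative_sum]
  refine Finset.sum_congr rfl fun k _ => ?_
  rw [Polynomial.derivative_monomial]
  have h : ((k : ℂ) + 1) ≠ 0 := by exact_mod_cast Nat.succ_ne_zero k
  simp only [Nat.add_sub_cancel]
  congr 1
  push_cast
  field_simp

lemma tp_eval (p : FormalMultilinearSeries ℂ ℂ ℂ) (n : ℕ) (z : ℂ) :
    (tp p n).eval z = p.partialSum n z := by
  unfold tp FormalMultilinearSeries.partialSum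
  rw [Polynomial.eval_finsetSum]
  refine Finset.sum_congr rfl fun k _ => ?_
  rw [Polynomial.eval_monomial, FormalMultilinearSeries.apply_eq_pow_smul_coeff, smul_eq_mul,
    mul_comm]

/-- uniform approximation by polynomials -/
lemma approx {G : ℂ → ℂ} {r R : ℝ} (hr : 0 < r) (hR : r < R)
    (hG : DifferentiableOn ℂ G (ball 0 R)) :
    ∃ p : FormalMultilinearSeries ℂ ℂ ℂ, ∀ ε : ℝ, 0 < ε → ∀ᶠ n : ℕ in atTop, ∀ z : ℂ, ‖z‖ ≤ r →
      ‖G z - (tp p n).eval z‖ < ε := by
  obtain ⟨R1, h1, h2⟩ := exists_between hR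
  obtain ⟨R2, h3, h4⟩ := exists_between h1
  have hR1 : 0 < R1 := hr.trans h1
  have hR2 : 0 < R2 := hr.trans h3
  lift R1 to NNReal using hR1.le
  lift R2 to NNReal using hR2.le
  have hd : DifferentiableOn ℂ G (closedBall 0 (R1 : ℝ)) := hG.mono (closedBall_subset_ball h2)
  have hp := hd.hasFPowerSeriesOnBall (by exact_mod_cast hR1)
  have hlt : (R2 : ENNReal) < (R1 : ENNReal) := by
    rw [ENNReal.coe_lt_coe]
    exact_mod_cast h4
  have hu := hp.tendstoUniformlyOn hlt
  refine ⟨cauchyPowerSeries G 0 R1, fun ε hε => ?_⟩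
  have hu2 := (Metric.tendstoUniformlyOn_iff.1 hu) ε hε
  filter_upwards [hu2] with n hn z hz
  have h5 := hn z (by
    rw [mem_ball, dist_zero_right]
    exact lt_of_le_of_lt hz h3)
  rw [dist_eq_norm, zero_add] at h5
  rw [tp_eval]
  exact h5

lemma norm_cp {r : ℝ} (hr : 0 < r) (t : ℝ) : ‖cp r t‖ = r := by
  unfold cp
  rw [norm_mul, Complex.norm_exp_ofReal_mul_I, mul_one, Complex.norm_real, Real.norm_eq_abs,
    abs_of_pos hr]

lemma continuous_cp (r : ℝ) : Continuous (cp r) := by
  unfold cp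
  fun_prop

/-- convergence of the integrals -/
lemma tendsto_int {u v : ℝ → ℂ} {G : ℂ → ℂ} {r : ℝ} (P : ℕ → Polynomial ℂ)
    (hP : ∀ ε : ℝ, 0 < ε → ∀ᶠ n : ℕ in atTop, ∀ z : ℂ, ‖z‖ ≤ r → ‖G z - (P n).eval z‖ < ε)
    (hG : ContinuousOn G (closedBall 0 r)) (hu : Continuous u) (hv : Continuous v)
    (hur : ∀ t, ‖u t‖ ≤ r) :
    Tendsto (fun n => ∫ t in (0 : ℝ)..(2 * Real.pi), ‖(P n).eval (u t) * v t‖ ^ 2) atTop
      (𝓝 (∫ t in (0 : ℝ)..(2 * Real.pi), ‖G (u t) * v t‖ ^ 2)) := by
  have hGu : Continuous fun t => G (u t) := hG.comp_continuous hu fun t => by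
    rw [mem_closedBall, dist_zero_right]
    exact hur t
  refine intervalIntegral.tendsto_integral_filter_of_dominated_convergence
    (fun t => ((‖G (u t)‖ + 1) * ‖v t‖) ^ 2) ?_ ?_ ?_ ?_
  · refine Eventually.of_forall fun n => ?_
    have : Continuous fun t => ‖(P n).eval (u t) * v t‖ ^ 2 := by
      have h1 : Continuous fun t => (P n).eval (u t) := (P n).continuous.comp hu
      fun_prop
    exact this.aestronglyMeasurable
  · filter_upwards [hP 1 one_pos] with n hn
    refine Eventually.of_forall fun t _ => ?_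
    have h1 := hn (u t) (hur t)
    have h2 : ‖(P n).eval (u t)‖ ≤ ‖G (u t)‖ + 1 := by
      have h3 : (P n).eval (u t) = G (u t) - (G (u t) - (P n).eval (u t)) := by ring
      calc ‖(P n).eval (u t)‖ = ‖G (u t) - (G (u t) - (P n).eval (u t))‖ := by rw [← h3]
        _ ≤ ‖G (u t)‖ + ‖G (u t) - (P n).eval (u t)‖ := norm_sub_le _ _
        _ ≤ _ := by linarith
    rw [Real.norm_eq_abs, abs_of_nonneg (by positivity), norm_mul]
    exact pow_le_pow_left₀ (by positivity) (mul_le_mul_of_nonneg_right h2 (norm_nonneg _)) 2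
  · have : Continuous fun t => ((‖G (u t)‖ + 1) * ‖v t‖) ^ 2 :=
      ((hGu.norm.add continuous_const).mul hv.norm).pow 2
    exact this.intervalIntegrable _ _
  · refine Eventually.of_forall fun t _ => ?_
    have h1 : Tendsto (fun n => (P n).eval (u t)) atTop (𝓝 (G (u t))) := by
      rw [Metric.tendsto_atTop']
      intro ε hε
      obtain ⟨N, hN⟩ := eventually_atTop.1 (hP ε hε)
      refine ⟨N, fun n hn => ?_⟩
      rw [dist_comm, dist_eq_norm]
      exact hN n hn.le (u t) (hur t)
    exact ((h1.mul_const (v t)).norm).pow 2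

theorem ap (hPO : S_PO) (hGO : S_GO) : S_AP := by
  intro G φ r R hφ hr hr2 hR hG
  have hr1 : r < 1 := by linarith
  obtain ⟨p, hp⟩ := approx hr hR hG
  have hGc : ContinuousOn G (closedBall 0 r) := (hG.mono (closedBall_subset_ball hR)).continuousOn
  have hmem : ∀ t, cp r t ∈ ball (0 : ℂ) 1 := fun t => by
    rw [mem_ball, dist_zero_right, norm_cp hr]
    exact hr1
  have hu1 : Continuous fun t => φ (cp r t) :=
    hφ.diff.continuousOn.comp_continuous (continuous_cp r) hmem
  have hur : ∀ t, ‖φ (cp r t)‖ ≤ r := fun t => by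
    have h := Complex.norm_le_norm_of_mapsTo_ball (R := 1) (z := cp r t) hφ.diff
      (fun z hz => ball_subset_closedBall (hφ.maps hz)) hφ.zero (by rw [norm_cp hr]; exact hr1)
    rw [norm_cp hr] at h
    exact h
  have hv : Continuous fun t => deriv φ (cp r t) :=
    (hφ.diff.deriv isOpen_ball).continuousOn.comp_continuous (continuous_cp r) hmem
  have hc : ∀ t, ‖cp r t‖ ≤ r := fun t => (norm_cp hr t).le
  have T0 := tendsto_int (G := G) (fun n => tp p n) hp hGc (continuous_cp r)
    (continuous_const (y := (1 : ℂ))) hc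
  have T1 := tendsto_int (G := G) (fun n => tp p n) hp hGc hu1
    (continuous_const (y := (1 : ℂ))) hur
  have T2 := tendsto_int (G := G) (fun n => tp p n) hp hGc hu1 hv hur
  simp only [mul_one] at T0 T1
  constructor
  · exact le_of_tendsto_of_tendsto' T1 T0 fun n => hPO (tp p n) φ r hφ hr hr1
  · refine le_of_tendsto_of_tendsto' T2 T0 fun n => ?_
    have h1 := hGO (fun z => (tq p n).eval z) φ r
      ((tq p n).differentiable.differentiableOn) hφ hr hr2
    have h2 : ∀ z : ℂ, deriv (fun z => (tq p n).eval z) z = (tp p n).eval z := fun z => by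
      rw [Polynomial.deriv, tq_deriv]
    have h3 : ∀ t, deriv (fun z => (tq p n).eval (φ z)) (cp r t) =
        (tp p n).eval (φ (cp r t)) * deriv φ (cp r t) := fun t => by
      have hd : DifferentiableAt ℂ φ (cp r t) :=
        hφ.diff.differentiableAt (isOpen_ball.mem_nhds (hmem t))
      have h4 := ((tq p n).hasDerivAt (φ (cp r t))).comp (cp r t) hd.hasDerivAt
      rw [tq_deriv] at h4
      exact h4.deriv
    simp only [h2, h3] at h1
    exact h1

end Pool.Agent.Q110.IM
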