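import Pool.Agent.Q81.IM.Stm

/-! JOB BL of project IM (helper81). -/

set_option autoImplicit false

open Complex Metric Set MeasureTheory Filter Topology

namespace Pool.Agent.Q110.IM

open Pool.Agent.Q81.IM

/-- the zeros in the closed disc are finitely many -/
lemma fin_zeros {F : ℂ → ℂ} {r : ℝ} (hr : 0 < r) (hr1 : r < 1)
    (hF : DifferentiableOn ℂ F (ball 0 1)) (h0 : ∀ z : ℂ, ‖z‖ = r → F z ≠ 0) :
    {z : ℂ | z ∈ closedBall (0 : ℂ) r ∧ F z = 0}.Finite := by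
  by_contra h
  obtain ⟨x, hx, hacc⟩ := Set.Infinite.exists_accPt_of_subset_isCompact h
    (isCompact_closedBall 0 r) (fun z hz => hz.1)
  have hfreq : ∃ᶠ z in 𝓝[≠] x, F z = 0 := by
    rw [accPt_iff_frequently_nhdsNE] at hacc
    exact hacc.mono fun z hz => hz.2
  have han : AnalyticOnNhd ℂ F (ball 0 1) := hF.analyticOnNhd isOpen_ball
  have h1 := han.eqOn_zero_of_preconnected_of_frequently_eq_zero
    (convex_ball (0 : ℂ) 1).isPreconnected (closedBall_subset_ball hr1 hx) hfreq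
  have h2 : ‖(r : ℂ)‖ = r := by rw [Complex.norm_real, Real.norm_eq_abs, abs_of_pos hr]
  refine h0 (r : ℂ) h2 (h1 ?_)
  rw [mem_ball, dist_zero_right, h2]
  exact hr1

/-- the factor `(r² - conj(a) z) / r` -/
noncomputable def qf (r : ℝ) (a z : ℂ) : ℂ := ((r : ℂ) ^ 2 - (starRingEnd ℂ) a * z) / (r : ℂ)

lemma qf_sq {r : ℝ} (hr : 0 < r) (a z : ℂ) :
    ‖qf r a z‖ ^ 2 * r ^ 2 - ‖z - a‖ ^ 2 * r ^ 2 = (r ^ 2 - ‖a‖ ^ 2) * (r ^ 2 - ‖z‖ ^ 2) := by
  unfold qf
  rw [norm_div, div_pow, Complex.norm_real, Real.norm_eq_abs, sq_abs,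
    div_mul_cancel₀ _ (by positivity)]
  simp only [← Complex.normSq_eq_norm_sq, Complex.normSq_apply]
  simp [pow_two]
  ring

lemma qf_ge {r : ℝ} (hr : 0 < r) {a z : ℂ} (ha : ‖a‖ ≤ r) (hz : ‖z‖ ≤ r) :
    ‖z - a‖ ≤ ‖qf r a z‖ := by
  have h := qf_sq hr a z
  have h1 : 0 ≤ (r ^ 2 - ‖a‖ ^ 2) * (r ^ 2 - ‖z‖ ^ 2) := by
    have h3 := norm_nonneg a
    have h4 := norm_nonneg z
    exact mul_nonneg (by nlinarith) (by nlinarith)
  have h2 : ‖z - a‖ ^ 2 * r ^ 2 ≤ ‖qf r a z‖ ^ 2 * r ^ 2 := by linarith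
  have h3 : ‖z - a‖ ^ 2 ≤ ‖qf r a z‖ ^ 2 := le_of_mul_le_mul_right h2 (by positivity)
  exact le_of_sq_le_sq h3 (norm_nonneg _)

lemma qf_eq {r : ℝ} (hr : 0 < r) {a z : ℂ} (hz : ‖z‖ = r) : ‖qf r a z‖ = ‖z - a‖ := by
  have h := qf_sq hr a z
  rw [hz] at h
  have h2 : ‖qf r a z‖ ^ 2 * r ^ 2 = ‖z - a‖ ^ 2 * r ^ 2 := by linarith
  have h3 : ‖qf r a z‖ ^ 2 = ‖z - a‖ ^ 2 := mul_right_cancel₀ (by positivity) h2
  exact (sq_eq_sq₀ (norm_nonneg _) (norm_nonneg _)).1 h3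

lemma qf_ne {r : ℝ} (hr : 0 < r) {a z : ℂ} (ha : ‖a‖ < r) (hz : ‖z‖ ≤ r) : qf r a z ≠ 0 := by
  unfold qf
  have hr0 : (r : ℂ) ≠ 0 := by exact_mod_cast hr.ne'
  refine div_ne_zero ?_ hr0
  intro h
  have h1 : (r : ℂ) ^ 2 = (starRingEnd ℂ) a * z := sub_eq_zero.1 h
  have h2 : r ^ 2 = ‖a‖ * ‖z‖ := by
    have h3 := congrArg norm h1
    rw [norm_pow, Complex.norm_real, Real.norm_eq_abs, sq_abs, norm_mul, RCLike.norm_conj] at h3
    exact h3
  have h4 : ‖a‖ * ‖z‖ < r * r := by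
    calc ‖a‖ * ‖z‖ ≤ ‖a‖ * r := mul_le_mul_of_nonneg_left hz (norm_nonneg _)
      _ < r * r := mul_lt_mul_of_pos_right ha hr
  nlinarith

lemma core {r : ℝ} (hr : 0 < r) (hr1 : r < 1) : ∀ (n : ℕ) (F : ℂ → ℂ),
    DifferentiableOn ℂ F (ball 0 1) → (∀ z : ℂ, ‖z‖ = r → F z ≠ 0) →
    {z : ℂ | z ∈ closedBall (0 : ℂ) r ∧ F z = 0}.ncard = n →
    ∃ H : ℂ → ℂ, DifferentiableOn ℂ H (ball 0 1) ∧ (∀ z ∈ closedBall (0 : ℂ) r, H z ≠ 0) ∧
      (∀ z : ℂ, ‖z‖ = r → ‖H z‖ = ‖F z‖) ∧ ∀ z : ℂ, ‖z‖ ≤ r → ‖F z‖ ≤ ‖H z‖ := by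
  intro n
  induction n with
  | zero =>
    intro F hF h0 hn
    rw [Set.ncard_eq_zero (fin_zeros hr hr1 hF h0)] at hn
    refine ⟨F, hF, fun z hz hzero => ?_, fun z _ => rfl, fun z _ => le_rfl⟩
    have : z ∈ ({z : ℂ | z ∈ closedBall (0 : ℂ) r ∧ F z = 0} : Set ℂ) := ⟨hz, hzero⟩
    rw [hn] at this
    exact this
  | succ n ih =>
    intro F hF h0 hn
    have hfin := fin_zeros hr hr1 hF h0
    obtain ⟨a, ha, haz⟩ : {z : ℂ | z ∈ closedBall (0 : ℂ) r ∧ F z = 0}.Nonempty := by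
      rw [Set.nonempty_iff_ne_empty]
      intro h
      rw [h, Set.ncard_empty] at hn
      omega
    have hale : ‖a‖ ≤ r := by rwa [mem_closedBall, dist_zero_right] at ha
    have halt : ‖a‖ < r := lt_of_le_of_ne hale fun h => h0 a h haz
    have hab : a ∈ ball (0 : ℂ) 1 := closedBall_subset_ball hr1 ha
    have han : AnalyticOnNhd ℂ F (ball 0 1) := hF.analyticOnNhd isOpen_ball
    have hnz : ¬ ∀ᶠ z in 𝓝 a, F z = 0 := by
      intro hev
      have h1 := han.eqOn_zero_of_preconnected_of_eventuallyEq_zero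
        (convex_ball (0 : ℂ) 1).isPreconnected hab hev
      have h2 : ‖(r : ℂ)‖ = r := by rw [Complex.norm_real, Real.norm_eq_abs, abs_of_pos hr]
      refine h0 (r : ℂ) h2 (h1 ?_)
      rw [mem_ball, dist_zero_right, h2]
      exact hr1
    obtain ⟨k, g, hg, hga, hev⟩ := (han a hab).exists_eventuallyEq_pow_smul_nonzero_iff.2 hnz
    classical
    set F₁ : ℂ → ℂ := Function.update (fun z => F z * (qf r a z / (z - a)) ^ k) a
      (g a * qf r a a ^ k) with hF₁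
    have e1 : ∀ z, z ≠ a → F₁ z = F z * (qf r a z / (z - a)) ^ k := fun z hz => by
      rw [hF₁, Function.update_of_ne hz]
    have e2 : F₁ a = g a * qf r a a ^ k := by rw [hF₁, Function.update_self]
    have e3 : F₁ =ᶠ[𝓝 a] fun z => g z * qf r a z ^ k := by
      filter_upwards [hev] with z hz
      by_cases hza : z = a
      · rw [hza, e2]
      · rw [e1 z hza, hz, smul_eq_mul]
        have h1 : (z - a) ^ k ≠ 0 := pow_ne_zero _ (sub_ne_zero.2 hza)
        rw [div_pow]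
        field_simp
    have hq : ∀ z, DifferentiableAt ℂ (qf r a) z := fun z => by
      unfold qf
      fun_prop
    have hF1 : DifferentiableOn ℂ F₁ (ball 0 1) := by
      intro z hz
      refine DifferentiableAt.differentiableWithinAt ?_
      by_cases hza : z = a
      · rw [hza]
        exact (hg.differentiableAt.mul ((hq a).pow k)).congr_of_eventuallyEq e3
      · have h1 : F₁ =ᶠ[𝓝 z] fun z => F z * (qf r a z / (z - a)) ^ k := by
          filter_upwards [isOpen_ne.mem_nhds hza] with w hw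
          exact e1 w hw
        refine DifferentiableAt.congr_of_eventuallyEq ?_ h1
        refine (hF.differentiableAt (isOpen_ball.mem_nhds hz)).mul (DifferentiableAt.pow ?_ k)
        exact (hq z).div (differentiableAt_id.sub_const a) (sub_ne_zero.2 hza)
    have hcirc : ∀ z : ℂ, ‖z‖ = r → z ≠ a := fun z hz h => by
      rw [h] at hz
      exact halt.ne hz
    have hn1 : ∀ z : ℂ, ‖z‖ = r → ‖F₁ z‖ = ‖F z‖ := fun z hz => by
      have h1 : ‖z - a‖ ≠ 0 := by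
        rw [norm_ne_zero_iff]
        exact sub_ne_zero.2 (hcirc z hz)
      rw [e1 z (hcirc z hz), norm_mul, norm_pow, norm_div, qf_eq hr hz, div_self h1, one_pow,
        mul_one]
    have hn2 : ∀ z : ℂ, ‖z‖ ≤ r → ‖F z‖ ≤ ‖F₁ z‖ := fun z hz => by
      by_cases hza : z = a
      · rw [hza, haz, norm_zero]
        exact norm_nonneg _
      · rw [e1 z hza, norm_mul, norm_pow, norm_div]
        have h1 : 0 < ‖z - a‖ := by
          rw [norm_pos_iff]
          exact sub_ne_zero.2 hza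
        have h2 : 1 ≤ (‖qf r a z‖ / ‖z - a‖) ^ k :=
          one_le_pow₀ ((one_le_div h1).2 (qf_ge hr hale hz))
        exact le_mul_of_one_le_right (norm_nonneg _) h2
    have h01 : ∀ z : ℂ, ‖z‖ = r → F₁ z ≠ 0 := fun z hz h => by
      have h1 := hn1 z hz
      rw [h, norm_zero] at h1
      exact h0 z hz (norm_eq_zero.1 h1.symm)
    have hset : {z : ℂ | z ∈ closedBall (0 : ℂ) r ∧ F₁ z = 0} =
        {z : ℂ | z ∈ closedBall (0 : ℂ) r ∧ F z = 0} \ {a} := by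
      ext z
      simp only [mem_ofPred_eq, Set.mem_sdiff, mem_singleton_iff]
      by_cases hza : z = a
      · subst hza
        rw [e2]
        have h1 : g z * qf r z z ^ k ≠ 0 := mul_ne_zero hga (pow_ne_zero _ (qf_ne hr halt hale))
        simp [h1]
      · rw [e1 z hza]
        constructor
        · rintro ⟨h1, h2⟩
          refine ⟨⟨h1, ?_⟩, hza⟩
          rw [mem_closedBall, dist_zero_right] at h1
          rcases mul_eq_zero.1 h2 with h3 | h3
          · exact h3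
          · exact absurd h3 (pow_ne_zero _ (div_ne_zero (qf_ne hr halt h1) (sub_ne_zero.2 hza)))
        · rintro ⟨⟨h1, h2⟩, -⟩
          exact ⟨h1, by rw [h2, zero_mul]⟩
    have hcard : {z : ℂ | z ∈ closedBall (0 : ℂ) r ∧ F₁ z = 0}.ncard = n := by
      have hmem : a ∈ {z : ℂ | z ∈ closedBall (0 : ℂ) r ∧ F z = 0} := ⟨ha, haz⟩
      rw [hset, Set.ncard_sdiff_singleton_of_mem hmem, hn]
      rfl
    obtain ⟨H, hH1, hH2, hH3, hH4⟩ := ih F₁ hF1 h01 hcard
    exact ⟨H, hH1, hH2, fun z hz => (hH3 z hz).trans (hn1 z hz),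
      fun z hz => (hn2 z hz).trans (hH4 z hz)⟩

theorem bl : S_BL := by
  intro F r hr hr1 hF h0
  obtain ⟨H, hH1, hH2, hH3, hH4⟩ := core hr hr1 _ F hF h0 rfl
  have hopen : IsOpen {z : ℂ | z ∈ ball (0 : ℂ) 1 ∧ H z ≠ 0} :=
    hH1.continuousOn.isOpen_inter_preimage isOpen_ball isOpen_ne
  have hsub : closedBall (0 : ℂ) r ⊆ {z : ℂ | z ∈ ball (0 : ℂ) 1 ∧ H z ≠ 0} :=
    fun z hz => ⟨closedBall_subset_ball hr1 hz, hH2 z hz⟩
  obtain ⟨δ, hδ, hδ2⟩ := (isCompact_closedBall (0 : ℂ) r).exists_cthickening_subset_open hopen hsub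
  rw [cthickening_closedBall hδ.le hr.le] at hδ2
  refine ⟨δ + r, H, by linarith, ?_, ?_, hH3, hH4⟩
  · exact hH1.mono fun z hz => (hδ2 (ball_subset_closedBall hz)).1
  · exact fun z hz => (hδ2 (ball_subset_closedBall hz)).2

end Pool.Agent.Q110.IM
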